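import Pool.Agent.U841.SC.Top

set_option autoImplicit false

/-! # Points as centres -/

namespace Pool.Agent.U841.SC

open MvPolynomial Pool.Agent.U841.SN

variable {n : ℕ}

/-- The centre `{p}`. -/
noncomputable def pointCentre (p : Fin n → ℂ) : Centre n where
  c := n
  e := Function.Embedding.refl _
  p := p
  θ := fun i => ((X i + C (p i) : MvPolynomial (Fin n) ℂ) : MvPowerSeries (Fin n) ℂ)
  θ_zero := fun i => by simp
  det_ne := by
    have h : (Matrix.of fun i j : Fin n => MvPowerSeries.coeff (Finsupp.single j 1)
        ((X i + C (p i) : MvPolynomial (Fin n) ℂ) : MvPowerSeries (Fin n) ℂ)) = 1 := by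
      ext i j
      rw [Matrix.of_apply, MvPolynomial.coeff_coe, coeff_add, coeff_C, if_neg (fun h =>
        one_ne_zero (Finsupp.single_eq_zero.1 h.symm)), add_zero, coeff_X', Matrix.one_apply]
      refine if_congr ?_ rfl rfl
      rw [Finsupp.single_left_inj one_ne_zero]
    rw [h, Matrix.det_one]
    exact one_ne_zero

theorem pull_point (p : Fin n → ℂ) (F : MvPolynomial (Fin n) ℂ) :
    pull (pointCentre p) F = ((shiftP p F : MvPolynomial (Fin n) ℂ) : MvPowerSeries (Fin n) ℂ) := by
  have h : pull (pointCentre p) =
      (MvPolynomial.coeToMvPowerSeries.algHom ℂ).comp (shiftP p) := by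
    refine algHom_ext fun i => ?_
    rw [AlgHom.comp_apply, shiftP_X, pull, aeval_X]
    simp [pointCentre]
  rw [h, AlgHom.comp_apply]
  simp

theorem xd_refl (α : Fin n →₀ ℕ) : xd (Function.Embedding.refl (Fin n)) α = α.degree := by
  rw [Finsupp.degree_eq_sum]
  rfl

theorem hx_point (k : ℕ) (F : MvPolynomial (Fin n) ℂ) :
    hx (Function.Embedding.refl (Fin n)) k (F : MvPowerSeries (Fin n) ℂ) =
      homogeneousComponent k F := by
  classical
  ext β
  rw [coeff_hx, coeff_homogeneousComponent, MvPolynomial.coeff_coe]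
  have : β.embDomain (Function.Embedding.refl (Fin n)) = β := by
    ext i
    exact Finsupp.embDomain_apply_self (Function.Embedding.refl (Fin n)) β i
  rw [this]

theorem mult_point (p : Fin n → ℂ) (F : MvPolynomial (Fin n) ℂ) :
    multZ (pointCentre p) F = multAt p F := by
  classical
  rw [multZ, multAt]
  congr 1
  ext k
  rw [Set.mem_setOf_eq, Set.mem_setOf_eq]
  constructor
  · rintro ⟨α, h1, h2⟩ h3
    rw [pull_point, MvPolynomial.coeff_coe] at h2
    have h4 := congrArg (coeff α) h3
    rw [coeff_homogeneousComponent, if_pos ((xd_refl α).symm.trans h1), coeff_zero] at h4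
    exact h2 h4
  · intro h
    obtain ⟨α, hα⟩ := MvPolynomial.ne_zero_iff.1 h
    rw [coeff_homogeneousComponent] at hα
    have h1 : α.degree = k := by
      by_contra h1
      exact hα (if_neg h1)
    rw [if_pos h1] at hα
    refine ⟨α, (xd_refl α).trans h1, ?_⟩
    rw [pull_point, MvPolynomial.coeff_coe]
    exact hα

/-- **For the centre `{p}` the normal cone is the tangent cone.** -/
theorem init_point (p : Fin n → ℂ) (F : MvPolynomial (Fin n) ℂ) :
    initZ (pointCentre p) F = initAt p F := by
  rw [initZ, mult_point, pull_point]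
  exact hx_point _ _

end Pool.Agent.U841.SC
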