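import Pool.Agent.U841.SC.Ser
import Pool.Agent.U841.SN.Defs2

set_option autoImplicit false

/-! # Smooth centres, normal cones -/

namespace Pool.Agent.U841.SC

open MvPolynomial Pool.Agent.U841.SN

/-- Formal coordinates `y` at a point `p` of `ℂ ^ n`, and a coordinate subspace of codimension `c`: the
coordinates `x` of the affine space are the power series `x_i = θ_i(y)` with `θ(0) = p` and invertible
Jacobian matrix at `0`, and the subspace is given by `y_(e k) = 0`, `k < c`. It describes a (formal)
submanifold `Z` of codimension `c` through `p`, the centre of a blow-up. -/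
structure Centre (n : ℕ) where
  /-- the codimension of the centre -/
  c : ℕ
  /-- the coordinates which vanish on the centre -/
  e : Fin c ↪ Fin n
  /-- the point -/
  p : Fin n → ℂ
  /-- the coordinates of the affine space as functions of the formal coordinates -/
  θ : Fin n → MvPowerSeries (Fin n) ℂ
  θ_zero : ∀ i, MvPowerSeries.constantCoeff (θ i) = p i
  det_ne : (Matrix.of fun i j : Fin n => MvPowerSeries.coeff (Finsupp.single j 1) (θ i)).det ≠ 0

/-- The expansion of a polynomial in the formal coordinates. -/
noncomputable def pull {n : ℕ} (Z : Centre n) :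
    MvPolynomial (Fin n) ℂ →ₐ[ℂ] MvPowerSeries (Fin n) ℂ :=
  aeval Z.θ

/-- The multiplicity of `F` along the centre: the least degree in the `y_(e k)` of a monomial of the
expansion of `F`. -/
noncomputable def multZ {n : ℕ} (Z : Centre n) (F : MvPolynomial (Fin n) ℂ) : ℕ :=
  sInf {k | ∃ α, xd Z.e α = k ∧ MvPowerSeries.coeff α (pull Z F) ≠ 0}

/-- The equation of the fibre over `p` of the normal cone of `F = 0` along the centre: the part of the
degree `multZ Z F` of the restriction of the expansion of `F` to the coordinates `y_(e k)` (that is, the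
other coordinates are `0`). -/
noncomputable def initZ {n : ℕ} (Z : Centre n) (F : MvPolynomial (Fin n) ℂ) :
    MvPolynomial (Fin Z.c) ℂ :=
  hx Z.e (multZ Z F) (pull Z F)

/-- The fibre over `p` of the projectivized normal cone of `F = 0` along the centre `Z` is a simple normal
crossing divisor with multiplicities of the projective space `ℙ^(c-1)`, `c ≥ 2`: its equation is
`u g_1 ^ m_1 ⋯ g_K ^ m_K` with forms `g_k` of degrees `δ_k ≥ 1` which define smooth hypersurfaces crossing
normally; and these are not just at most `c` hyperplanes. -/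
def ConeNC {n : ℕ} (Z : Centre n) (F : MvPolynomial (Fin n) ℂ) : Prop :=
  2 ≤ Z.c ∧ ∃ (K : ℕ) (g : Fin K → MvPolynomial (Fin Z.c) ℂ) (δ m : Fin K → ℕ) (u : ℂ),
    u ≠ 0 ∧ (∀ k, (g k).IsHomogeneous (δ k)) ∧ (∀ k, 0 < δ k) ∧ (∀ k, 0 < m k) ∧
      NormalCrossings g ∧ ((∃ k, 2 ≤ δ k) ∨ Z.c < K) ∧ initZ Z F = C u * ∏ k, g k ^ m k

/-- The numbers `ν` of the blow-up: the codimensions of the centres, and `1` for the strict
transforms. -/
def nuZ {n : ℕ} {I : Type} (Z : I → Centre n) (T : Type) : I ⊕ T → ℕ :=
  Sum.elim (fun i => (Z i).c) fun _ => 1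

/-- The multiplicities of `F = ∏ t, f t ^ a t` on the blow-up: the multiplicities of `F` along the
centres for the exceptional divisors, and `a t` for the strict transform of `f t = 0`. -/
noncomputable def mulZ {n : ℕ} {I T : Type} (Z : I → Centre n) (F : MvPolynomial (Fin n) ℂ)
    (a : T → ℕ) : I ⊕ T → ℕ :=
  Sum.elim (fun i => multZ (Z i) F) a

/-- Near the point `q` (in the Zariski topology) there is a centre of codimension `ν` along which `F` has
the multiplicity `N`, at a point at which the projectivized normal cone is a simple normal crossing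
divisor. -/
def CentreNear {n : ℕ} (F : MvPolynomial (Fin n) ℂ) (q : Fin n → ℂ) (ν N : ℕ) : Prop :=
  ∀ H : MvPolynomial (Fin n) ℂ, eval q H ≠ 0 →
    ∃ Z : Centre n, ConeNC Z F ∧ eval Z.p H ≠ 0 ∧ Z.c = ν ∧ multZ Z F = N

/-- The numbers `ν` of the centres near a point, and `1` for the strict transforms. -/
def nuL {I : Type} (ν : I → ℕ) (T : Type) : I ⊕ T → ℕ := Sum.elim ν fun _ => 1

/-- The multiplicities of the centres near a point, and of the strict transforms. -/
def mulL {I T : Type} (N : I → ℕ) (a : T → ℕ) : I ⊕ T → ℕ := Sum.elim N a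

end Pool.Agent.U841.SC
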