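import Pool.Agent.U841.SC.Op

set_option autoImplicit false

/-! # Initial forms along a coordinate subspace of functional equations -/

namespace Pool.Agent.U841.SC

open MvPolynomial Pool.Agent.U841.SN Pool.Agent.H628R4.TP Pool.Agent.U184 Pool.Agent.W574.CN
  Pool.Agent.N127.PB

variable {n c : ℕ} (e : Fin c ↪ Fin n)

/-- the components of a product -/
theorem hx_prod (p q : PS n) (d k : ℕ) (hp : ∀ i, i < d → hx e i p = 0) :
    hx e (d + k) (p * q) =
      ∑ j ∈ Finset.range (k + 1), hx e (d + j) p * hx e (k - j) q := by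
  rw [hx_mul, show d + k + 1 = d + (k + 1) by omega, Finset.sum_range_add,
    Finset.sum_eq_zero (fun i hi => by
      rw [Finset.mem_range] at hi
      rw [hp i hi, zero_mul]), zero_add]
  refine Finset.sum_congr rfl fun j _ => ?_
  rw [show d + k - (d + j) = k - j by omega]

theorem hx_pow (p : PS n) (d : ℕ) (hp : ∀ i, i < d → hx e i p = 0) (m : ℕ) :
    (∀ i, i < d * m → hx e i (p ^ m) = 0) ∧ hx e (d * m) (p ^ m) = hx e d p ^ m := by
  induction m with
  | zero =>
    refine ⟨fun i hi => by omega, ?_⟩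
    rw [mul_zero, pow_zero, pow_zero, hx_zero, map_one, map_one]
  | succ m ih =>
    have h1 : ∀ k, hx e (d * m + k) (p ^ m * p) =
        ∑ j ∈ Finset.range (k + 1), hx e (d * m + j) (p ^ m) * hx e (k - j) p :=
      fun k => hx_prod e _ _ _ _ ih.1
    refine ⟨fun i hi => ?_, ?_⟩
    · rw [pow_succ]
      by_cases h : i < d * m
      · rw [hx_mul]
        refine Finset.sum_eq_zero fun j hj => ?_
        rw [Finset.mem_range] at hj
        rw [ih.1 j (by omega), zero_mul]
      · rw [show i = d * m + (i - d * m) by omega, h1]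
        refine Finset.sum_eq_zero fun j hj => ?_
        rw [Finset.mem_range] at hj
        have h2 : d * (m + 1) = d * m + d := by ring
        rw [hp _ (by omega), mul_zero]
    · rw [pow_succ, show d * (m + 1) = d * m + d by ring, h1, Finset.sum_range_succ',
        Nat.sub_zero, Nat.add_zero, Finset.sum_eq_zero, zero_add, ih.2, pow_succ]
      intro j hj
      rw [Finset.mem_range] at hj
      rw [hp _ (by omega), mul_zero]

/-- the truncation -/
noncomputable def tr (M : ℕ) (p : PS n) : MvPolynomial (Fin c) ℂ :=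
  ∑ k ∈ Finset.range (M + 1), hx e k p

theorem hc_tr (M : ℕ) (p : PS n) (k : ℕ) (hk : k ≤ M) :
    homogeneousComponent k (tr e M p) = hx e k p := by
  rw [tr, map_sum, Finset.sum_eq_single k]
  · exact homogeneousComponent_eq_self (hx_hom e k p)
  · intro j _ hj
    rw [homogeneousComponent_of_mem (hx_hom e j p), if_neg (Ne.symm hj)]
  · intro h
    exact absurd (Finset.mem_range.2 (by omega)) h

/-- **The expansion of a power.** -/
theorem expandS (p : PS n) (d : ℕ) (hp : ∀ i, i < d → hx e i p = 0) (j : ℕ) :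
    ∃ W : Polynomial (MvPolynomial (Fin c) ℂ), ∀ m : ℕ, j ≤ m →
      hx e (d * m + j) (p ^ m) = hx e d p ^ (m - j) * W.eval (m : MvPolynomial (Fin c) ℂ) := by
  have ho : OrdGe d (tr e (d + j) p) := fun i hi => by
    rw [hc_tr e _ _ _ (by omega), hp i hi]
  obtain ⟨W, hW⟩ := expand (tr e (d + j) p) d ho j
  have h1 : ∀ m i, i ≤ d * m + j → hx e i (p ^ m) =
      homogeneousComponent i (tr e (d + j) p ^ m) := by
    intro m
    induction m with
    | zero =>
      intro i _
      rw [pow_zero, pow_zero]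
      rcases Nat.eq_zero_or_pos i with h | h
      · rw [h, hx_zero, homogeneousComponent_zero, map_one, coeff_one, if_pos rfl]
      · rw [homogeneousComponent_of_mem (isHomogeneous_one _ _), if_neg (by omega)]
        have h2 := hx_mul e (1 : PS n) 1 0
        have h3 : hx e i (1 : PS n) = 0 := by
          have h4 : (1 : PS n) = MvPowerSeries.C 1 * 1 := by rw [map_one, one_mul]
          classical
          ext β
          rw [coeff_hx, MvPowerSeries.coeff_one, coeff_zero]
          split_ifs with h5 h6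
          · exfalso
            have h7 : β = 0 := by
              rw [← Finsupp.embDomain_zero (f := e)] at h6
              exact Finsupp.embDomain_injective e h6
            rw [h7, map_zero] at h5
            omega
          · rfl
          · rfl
        exact h3
    | succ m ih =>
      intro i hi
      have h2 : d * (m + 1) = d * m + d := by ring
      rw [pow_succ, pow_succ]
      by_cases h : i < d * m
      · rw [hx_mul, (((ho.pow m).1.mul (q := tr e (d + j) p) (e := 0)
          (fun i hi => absurd hi (Nat.not_lt_zero i))).1) i (by omega)]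
        refine Finset.sum_eq_zero fun k hk => ?_
        rw [Finset.mem_range] at hk
        rw [(hx_pow e p d hp m).1 k (by omega), zero_mul]
      · obtain ⟨k, rfl⟩ : ∃ k, i = d * m + k := ⟨i - d * m, by omega⟩
        rw [hx_prod e _ _ _ _ (hx_pow e p d hp m).1, hc_prod _ _ _ _ (ho.pow m).1]
        refine Finset.sum_congr rfl fun l hl => ?_
        rw [Finset.mem_range] at hl
        by_cases h3 : k - l < d
        · rw [hp _ h3, ho _ h3, mul_zero, mul_zero]
        · rw [ih (d * m + l) (by omega), hc_tr e _ _ (k - l) (by omega)]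
  refine ⟨W, fun m hm => ?_⟩
  rw [h1 m _ le_rfl, hW m hm, hc_tr e _ _ d (by omega)]

/-- **The components of the derivatives of powers.** -/
theorem act_expandS (F : PS n) (d : ℕ) (hF : ∀ i, i < d → hx e i F = 0)
    (u : Module.End ℂ (PS n)) (hu : u ∈ DD n) :
    ∃ (M : ℕ) (V : Polynomial (MvPolynomial (Fin c) ℂ)), ∀ s : ℕ, M ≤ s →
      hx e (d * s + 1) (u (F ^ (s + 1))) = hx e d F ^ (s - M) * V.eval (C (s : ℂ)) := by
  classical
  obtain ⟨N, U, hU⟩ := fam_pow F hu
  set G := hx e d F with hG
  have hU' : ∀ s : ℕ, N ≤ s → u (F ^ (s + 1)) =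
      F ^ (s - N) * (F * U.eval ((s + 1 : ℕ) : PS n)) := by
    intro s hs
    rw [hU (s + 1) (by omega), show s + 1 - N = (s - N) + 1 by omega, pow_succ]
    ring
  choose W hW using expandS e F d hF
  set k := d * N + 1 with hk
  set U1 : Polynomial (PS n) := Polynomial.C F * U.comp (Polynomial.X + 1) with hU1
  -- the components of `U1` at `s`
  let HU : ℕ → Polynomial (MvPolynomial (Fin c) ℂ) := fun i =>
    ∑ q ∈ Finset.range (U1.natDegree + 1), Polynomial.monomial q (hx e i (U1.coeff q))
  have hHU : ∀ i (s : ℕ), (HU i).eval (C (s : ℂ)) = hx e i (U1.eval (s : PS n)) := by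
    intro i s
    simp only [HU, Polynomial.eval_finsetSum, Polynomial.eval_monomial]
    rw [Polynomial.eval_eq_sum_range, map_sum]
    refine Finset.sum_congr rfl fun q _ => ?_
    have h1 : U1.coeff q * (s : PS n) ^ q = MvPowerSeries.C ((s : ℂ) ^ q) * U1.coeff q := by
      rw [map_pow, map_natCast]
      ring
    rw [h1, hx_C_mul, map_pow]
    ring
  refine ⟨N + k, ∑ j ∈ Finset.range (k + 1), Polynomial.C (G ^ (k - j)) *
    (W j).comp (Polynomial.X - Polynomial.C (N : MvPolynomial (Fin c) ℂ)) * HU (k - j),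
    fun s hs => ?_⟩
  rw [hU' s (by omega)]
  have h1 : d * s + 1 = d * (s - N) + k := by
    have : d * s = d * (s - N) + d * N := by rw [← mul_add, Nat.sub_add_cancel (by omega)]
    omega
  rw [h1, hx_prod e _ _ _ _ (hx_pow e F d hF (s - N)).1, Polynomial.eval_finsetSum,
    Finset.mul_sum]
  refine Finset.sum_congr rfl fun j hj => ?_
  rw [Finset.mem_range] at hj
  have h2 : U1.eval (s : PS n) = F * U.eval ((s + 1 : ℕ) : PS n) := by
    rw [hU1, Polynomial.eval_mul, Polynomial.eval_C, Polynomial.eval_comp, Polynomial.eval_add,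
      Polynomial.eval_X, Polynomial.eval_one]
    congr 2
    simp
  rw [hW j (s - N) (by omega), Polynomial.eval_mul, Polynomial.eval_mul, Polynomial.eval_C,
    hHU, h2, Polynomial.eval_comp, Polynomial.eval_sub, Polynomial.eval_X, Polynomial.eval_C]
  have h3 : (C (s : ℂ) : MvPolynomial (Fin c) ℂ) - (N : MvPolynomial (Fin c) ℂ) =
      ((s - N : ℕ) : MvPolynomial (Fin c) ℂ) := by
    rw [Nat.cast_sub (by omega)]
    simp
  have h4 : G ^ (s - N - j) = G ^ (s - (N + k)) * G ^ (k - j) := by
    rw [← pow_add]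
    congr 1
    omega
  rw [h3, h4]
  ring

/-- **The initial form of a functional equation along a coordinate subspace.** -/
theorem extS (F H : PS n) (d : ℕ) (hd : 0 < d) (hF : Fil e d F) (hG0 : hx e d F ≠ 0)
    (hH : MvPowerSeries.constantCoeff H ≠ 0) (b : Polynomial ℂ) (L : Finset ℕ)
    (P : ℕ → Module.End ℂ (PS n)) (hPm : ∀ m, P m ∈ DD n)
    (hP : ∀ s : ℕ, H * (MvPowerSeries.C (b.eval (s : ℂ)) * F ^ s) =
      ∑ m ∈ L, ((s : ℂ) ^ m) • P m (F ^ (s + 1))) (α : ℂ) :
    ∃ (r : ℂ) (N : ℕ) (V : Fin c → MvPolynomial (Fin c) ℂ), r ≠ 0 ∧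
      (∀ l, (V l).IsHomogeneous (d * N + 1)) ∧
      hx e d F * ∑ l, pderiv l (V l) + C (α - N) * ∑ l, V l * pderiv l (hx e d F) =
        hx e d F ^ (N + 1) * C (r * b.eval α) := by
  classical
  set G := hx e d F with hG
  have hGh : G.IsHomogeneous d := hx_hom e d F
  have hF0 : ∀ i, i < d → hx e i F = 0 := fun i hi => hF.hx e i hi
  choose w0 u hw0 hu hdec using fun m => decomp e (hPm m)
  -- the equation in degree `d * s`
  have e1 : ∀ s : ℕ, C (MvPowerSeries.constantCoeff H * b.eval (s : ℂ)) * G ^ s =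
      ∑ l, pderiv l (∑ m ∈ L, C ((s : ℂ) ^ m) *
        hx e (d * s + 1) (u m l (F ^ (s + 1)))) := by
    intro s
    have h1 := congrArg (hx e (d * s)) (hP s)
    have h2 : hx e (d * s) (H * (MvPowerSeries.C (b.eval (s : ℂ)) * F ^ s)) =
        C (MvPowerSeries.constantCoeff H * b.eval (s : ℂ)) * G ^ s := by
      have h3 := hx_prod e H (MvPowerSeries.C (b.eval (s : ℂ)) * F ^ s) 0 (d * s)
        (fun i hi => absurd hi (Nat.not_lt_zero i))
      rw [zero_add] at h3
      rw [h3, Finset.sum_eq_single 0]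
      · rw [Nat.add_zero, Nat.sub_zero, hx_zero, hx_C_mul, (hx_pow e F d hF0 s).2, map_mul,
          mul_assoc]
      · intro j _ hj
        by_cases hjs : j ≤ d * s
        · rw [hx_C_mul, (hx_pow e F d hF0 s).1 _ (by omega), mul_zero, mul_zero]
        · rename_i h5
          rw [Finset.mem_range] at h5
          omega
      · intro h
        exact absurd (Finset.mem_range.2 (Nat.succ_pos _)) h
    rw [h2] at h1
    rw [h1, map_sum]
    have h4 : ∀ m ∈ L, hx e (d * s) (((s : ℂ) ^ m) • P m (F ^ (s + 1))) =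
        ∑ l, C ((s : ℂ) ^ m) * pderiv l (hx e (d * s + 1) (u m l (F ^ (s + 1)))) := by
      intro m _
      rw [map_smul, hdec m (F ^ (s + 1)), map_add]
      have h5 : hx e (d * s) (w0 m (F ^ (s + 1))) = 0 := by
        refine (hw0 m _ _ (hF.pow e (s + 1))).hx e _ ?_
        rw [mul_add]
        omega
      rw [h5, zero_add, map_sum, Finset.smul_sum]
      refine Finset.sum_congr rfl fun l _ => ?_
      rw [hx_pderiv, smul_eq_C_mul]
    rw [Finset.sum_congr rfl h4, Finset.sum_comm]
    refine Finset.sum_congr rfl fun l _ => ?_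
    rw [map_sum]
    refine Finset.sum_congr rfl fun m _ => ?_
    rw [pderiv_C_mul]
  -- the families
  choose M0 V0 hV0 using fun (m : ℕ) (l : Fin c) => act_expandS e F d hF0 (u m l) (hu m l)
  obtain ⟨N, hN⟩ : ∃ N : ℕ, ∀ m ∈ L, ∀ l, M0 m l ≤ N := by
    refine ⟨∑ m ∈ L, ∑ l, M0 m l, fun m hm l => ?_⟩
    have a1 : M0 m l ≤ ∑ l, M0 m l := Finset.single_le_sum (f := fun l => M0 m l)
      (fun _ _ => Nat.zero_le _) (Finset.mem_univ l)
    have a2 : ∑ l, M0 m l ≤ ∑ m ∈ L, ∑ l, M0 m l :=
      Finset.single_le_sum (f := fun m => ∑ l, M0 m l) (fun _ _ => Nat.zero_le _) hm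
    omega
  let W : Fin c → Polynomial (MvPolynomial (Fin c) ℂ) := fun l => ∑ m ∈ L,
    Polynomial.X ^ m * (Polynomial.C (G ^ (N - M0 m l)) * V0 m l)
  have hW : ∀ (l : Fin c) (s : ℕ), N ≤ s →
      ∑ m ∈ L, C ((s : ℂ) ^ m) * hx e (d * s + 1) (u m l (F ^ (s + 1))) =
        G ^ (s - N) * (W l).eval (C (s : ℂ)) := by
    intro l s hs
    simp only [W, Polynomial.eval_finsetSum, Finset.mul_sum]
    refine Finset.sum_congr rfl fun m hm => ?_
    have hNm := hN m hm l
    rw [hV0 m l s (by omega), Polynomial.eval_mul, Polynomial.eval_mul, Polynomial.eval_pow,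
      Polynomial.eval_X, Polynomial.eval_C, map_pow]
    have h4 : G ^ (s - M0 m l) = G ^ (s - N) * G ^ (N - M0 m l) := by
      rw [← pow_add]
      congr 1
      omega
    rw [h4]
    ring
  let V : Fin c → Polynomial (MvPolynomial (Fin c) ℂ) := fun l =>
    mapU (homogeneousComponent (d * N + 1)) (W l)
  have hVh : ∀ l i, ((V l).coeff i).IsHomogeneous (d * N + 1) := fun l i => by
    rw [mapU_coeff]
    exact homogeneousComponent_isHomogeneous _ _
  have hV : ∀ (l : Fin c) (s : ℕ), N ≤ s →
      ∑ m ∈ L, C ((s : ℂ) ^ m) * hx e (d * s + 1) (u m l (F ^ (s + 1))) =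
        G ^ (s - N) * (V l).eval (C (s : ℂ)) := by
    intro l s hs
    have h1 : homogeneousComponent (d * s + 1) (∑ m ∈ L, C ((s : ℂ) ^ m) *
        hx e (d * s + 1) (u m l (F ^ (s + 1)))) =
        ∑ m ∈ L, C ((s : ℂ) ^ m) * hx e (d * s + 1) (u m l (F ^ (s + 1))) := by
      refine homogeneousComponent_eq_self ?_
      refine IsHomogeneous.sum _ _ _ fun m _ => ?_
      exact (hx_hom e _ _).C_mul _
    rw [← h1, hW l s hs, mapU_eval]
    have h2 : d * s + 1 = d * (s - N) + (d * N + 1) := by
      have : d * s = d * (s - N) + d * N := by rw [← mul_add, Nat.sub_add_cancel hs]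
      omega
    rw [h2, hc_mul (hGh.pow (s - N))]
  refine ⟨MvPowerSeries.constantCoeff H, N, fun l => (V l).eval (C α), hH,
    fun l => eval_hom_family (V l) _ (hVh l) α, ?_⟩
  have h1 := (id_and_deriv G hG0 N V ((Polynomial.C (MvPowerSeries.constantCoeff H) * b).map C)
    (fun s hs => ?_) α).1
  · rw [h1]
    congr 1
    rw [Polynomial.eval_map, Polynomial.eval₂_at_apply, Polynomial.eval_mul, Polynomial.eval_C]
  · rw [Polynomial.eval_map, Polynomial.eval₂_at_apply, Polynomial.eval_mul, Polynomial.eval_C,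
      mul_comm (G ^ s), e1 s]
    exact Finset.sum_congr rfl fun l _ => by rw [hV l s hs]

end Pool.Agent.U841.SC
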