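import Pool.Agent.U841.SC.Ser

set_option autoImplicit false

/-! # Differential operators with formal power series as coefficients -/

namespace Pool.Agent.U841.SC

open Pool.Agent.U841.SN Pool.Agent.H628R4.TP

variable {n c : ℕ}

/-- The differential operators with formal power series as coefficients. -/
noncomputable def DD (n : ℕ) : Subalgebra ℂ (Module.End ℂ (PS n)) :=
  Algebra.adjoin ℂ (Set.range (fun a : PS n => LinearMap.mulLeft ℂ a) ∪
    Set.range fun j : Fin n => ((MvPowerSeries.pderiv ℂ j : Derivation ℂ (PS n) (PS n)) :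
      PS n →ₗ[ℂ] PS n))

theorem mul_mem (a : PS n) : LinearMap.mulLeft ℂ a ∈ DD n :=
  Algebra.subset_adjoin (Or.inl ⟨a, rfl⟩)

theorem pd_mem (j : Fin n) : ((MvPowerSeries.pderiv ℂ j : Derivation ℂ (PS n) (PS n)) :
    PS n →ₗ[ℂ] PS n) ∈ DD n :=
  Algebra.subset_adjoin (Or.inr ⟨j, rfl⟩)

/-- commuting derivatives -/
theorem pd_comm (i j : Fin n) (z : PS n) : MvPowerSeries.pderiv ℂ i (MvPowerSeries.pderiv ℂ j z) =
    MvPowerSeries.pderiv ℂ j (MvPowerSeries.pderiv ℂ i z) := by
  classical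
  ext α
  rw [MvPowerSeries.coeff_pderiv, MvPowerSeries.coeff_pderiv, MvPowerSeries.coeff_pderiv,
    MvPowerSeries.coeff_pderiv, add_right_comm]
  by_cases h : i = j
  · rw [h]
  · rw [Finsupp.add_apply, Finsupp.add_apply, Finsupp.single_eq_of_ne (Ne.symm h),
      Finsupp.single_eq_of_ne h, add_zero, add_zero]
    ring

variable (e : Fin c ↪ Fin n)

/-- operators which preserve the order along the subspace -/
def W0 (w : Module.End ℂ (PS n)) : Prop := w ∈ DD n ∧ ∀ d z, Fil e d z → Fil e d (w z)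

/-- normal forms -/
def NF : ℕ → Module.End ℂ (PS n) → Prop
  | 0, w => W0 e w
  | k + 1, w => ∃ (w0 : Module.End ℂ (PS n)) (u : Fin c → Module.End ℂ (PS n)), W0 e w0 ∧
      (∀ l, NF k (u l)) ∧ ∀ z, w z = w0 z + ∑ l, MvPowerSeries.pderiv ℂ (e l) (u l z)

theorem W0.zero : W0 e 0 := ⟨Subalgebra.zero_mem _, fun d z _ => by
  intro α _
  rw [LinearMap.zero_apply, map_zero]⟩

theorem W0.add {w w' : Module.End ℂ (PS n)} (h : W0 e w) (h' : W0 e w') : W0 e (w + w') :=
  ⟨Subalgebra.add_mem _ h.1 h'.1, fun d z hz => (h.2 d z hz).add e (h'.2 d z hz)⟩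

theorem W0.mul {w : Module.End ℂ (PS n)} (h : W0 e w) (a : PS n) :
    W0 e (LinearMap.mulLeft ℂ a * w) :=
  ⟨Subalgebra.mul_mem _ (mul_mem a) h.1, fun d z hz => (h.2 d z hz).left e a⟩

theorem W0.pd {w : Module.End ℂ (PS n)} (h : W0 e w) (j : Fin n) (hj : ∀ k, e k ≠ j) :
    W0 e (((MvPowerSeries.pderiv ℂ j : Derivation ℂ (PS n) (PS n)) : PS n →ₗ[ℂ] PS n) * w) :=
  ⟨Subalgebra.mul_mem _ (pd_mem j) h.1, fun d z hz => (h.2 d z hz).pderiv e j hj⟩

theorem NF.zero (k : ℕ) : NF e k 0 := by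
  induction k with
  | zero => exact W0.zero e
  | succ k ih =>
    refine ⟨0, 0, W0.zero e, fun _ => ih, fun z => ?_⟩
    simp

theorem NF.of0 {w : Module.End ℂ (PS n)} (h : W0 e w) (k : ℕ) : NF e k w := by
  cases k with
  | zero => exact h
  | succ k =>
    refine ⟨w, 0, h, fun _ => NF.zero e k, fun z => ?_⟩
    simp

theorem NF.succ {k : ℕ} : ∀ {w : Module.End ℂ (PS n)}, NF e k w → NF e (k + 1) w := by
  induction k with
  | zero => intro w h; exact NF.of0 e h 1
  | succ k ih =>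
    rintro w ⟨w0, u, h0, hu, hw⟩
    exact ⟨w0, u, h0, fun l => ih (hu l), hw⟩

theorem NF.mono {k m : ℕ} (hkm : k ≤ m) {w : Module.End ℂ (PS n)} (h : NF e k w) : NF e m w := by
  induction m, hkm using Nat.le_induction with
  | base => exact h
  | succ m _ ih => exact ih.succ e

theorem NF.add {k : ℕ} : ∀ {w w' : Module.End ℂ (PS n)}, NF e k w → NF e k w' →
    NF e k (w + w') := by
  induction k with
  | zero => intro w w' h h'; exact W0.add e h h'
  | succ k ih =>
    rintro w w' ⟨w0, u, h0, hu, hw⟩ ⟨w0', u', h0', hu', hw'⟩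
    refine ⟨w0 + w0', fun l => u l + u' l, h0.add e h0', fun l => ih (hu l) (hu' l), fun z => ?_⟩
    rw [LinearMap.add_apply, hw, hw', LinearMap.add_apply]
    simp only [LinearMap.add_apply, map_add, Finset.sum_add_distrib]
    ring

theorem NF.sum {k : ℕ} {ι : Type} (s : Finset ι) (w : ι → Module.End ℂ (PS n))
    (h : ∀ i ∈ s, NF e k (w i)) : NF e k (∑ i ∈ s, w i) := by
  classical
  induction s using Finset.induction_on with
  | empty =>
    rw [Finset.sum_empty]
    exact NF.zero e k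
  | insert i s hi ih =>
    rw [Finset.sum_insert hi]
    exact (h i (Finset.mem_insert_self _ _)).add e
      (ih fun j hj => h j (Finset.mem_insert_of_mem hj))

theorem NF.mul {k : ℕ} : ∀ {w : Module.End ℂ (PS n)}, NF e k w → ∀ a : PS n,
    NF e k (LinearMap.mulLeft ℂ a * w) := by
  induction k with
  | zero => intro w h a; exact W0.mul e h a
  | succ k ih =>
    rintro w ⟨w0, u, h0, hu, hw⟩ a
    have h1 : NF e (k + 1) (∑ l, LinearMap.mulLeft ℂ (-(MvPowerSeries.pderiv ℂ (e l) a)) * u l) :=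
      (NF.sum e _ _ fun l _ => ih (hu l) _).succ e
    obtain ⟨w1, u1, h1a, h1b, h1c⟩ := h1
    refine ⟨LinearMap.mulLeft ℂ a * w0 + w1, fun l => LinearMap.mulLeft ℂ a * u l + u1 l,
      (h0.mul e a).add e h1a, fun l => (ih (hu l) a).add e (h1b l), fun z => ?_⟩
    have h2 := h1c z
    rw [LinearMap.sum_apply] at h2
    simp only [Module.End.mul_apply, LinearMap.mulLeft_apply] at h2
    rw [Module.End.mul_apply, LinearMap.mulLeft_apply, hw, LinearMap.add_apply,
      Module.End.mul_apply, LinearMap.mulLeft_apply]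
    simp only [LinearMap.add_apply, Module.End.mul_apply, LinearMap.mulLeft_apply, map_add,
      Derivation.leibniz, smul_eq_mul, Finset.sum_add_distrib]
    rw [mul_add, Finset.mul_sum]
    simp only [neg_mul, Finset.sum_neg_distrib] at h2
    have h3 : ∑ l, u l z * MvPowerSeries.pderiv ℂ (e l) a =
        ∑ l, MvPowerSeries.pderiv ℂ (e l) a * u l z := Finset.sum_congr rfl fun l _ => mul_comm _ _
    rw [h3]
    linear_combination h2

theorem NF.pd {k : ℕ} : ∀ {w : Module.End ℂ (PS n)}, NF e k w → ∀ j : Fin n, (∀ k, e k ≠ j) →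
    NF e k (((MvPowerSeries.pderiv ℂ j : Derivation ℂ (PS n) (PS n)) : PS n →ₗ[ℂ] PS n) * w) := by
  induction k with
  | zero => intro w h j hj; exact W0.pd e h j hj
  | succ k ih =>
    rintro w ⟨w0, u, h0, hu, hw⟩ j hj
    refine ⟨_, fun l => ((MvPowerSeries.pderiv ℂ j : Derivation ℂ (PS n) (PS n)) :
      PS n →ₗ[ℂ] PS n) * u l, h0.pd e j hj, fun l => ih (hu l) j hj, fun z => ?_⟩
    change MvPowerSeries.pderiv ℂ j (w z) = MvPowerSeries.pderiv ℂ j (w0 z) +
      ∑ l, MvPowerSeries.pderiv ℂ (e l) (MvPowerSeries.pderiv ℂ j (u l z))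
    rw [hw, map_add, map_sum]
    congr 1
    exact Finset.sum_congr rfl fun l _ => pd_comm _ _ _

theorem NF.px {k : ℕ} {w : Module.End ℂ (PS n)} (h : NF e k w) (l : Fin c) :
    NF e (k + 1) (((MvPowerSeries.pderiv ℂ (e l) : Derivation ℂ (PS n) (PS n)) :
      PS n →ₗ[ℂ] PS n) * w) := by
  classical
  refine ⟨0, fun m => if m = l then w else 0, W0.zero e, fun m => ?_, fun z => ?_⟩
  · beta_reduce
    split_ifs
    · exact h
    · exact NF.zero e k
  · rw [Finset.sum_eq_single l]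
    · beta_reduce
      rw [if_pos rfl, LinearMap.zero_apply, zero_add]
      rfl
    · intro m _ hm
      beta_reduce
      rw [if_neg hm, LinearMap.zero_apply, map_zero]
    · intro h
      exact absurd (Finset.mem_univ _) h

/-- **Normal forms of the operators.** -/
theorem nf_all {w : Module.End ℂ (PS n)} (hw : w ∈ DD n) :
    ∀ w' : Module.End ℂ (PS n), (∃ k, NF e k w') → ∃ k, NF e k (w * w') := by
  classical
  unfold DD at hw
  induction hw using Algebra.adjoin_induction with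
  | mem x hx =>
    rintro w' ⟨k, hk⟩
    rcases hx with ⟨a, rfl⟩ | ⟨j, rfl⟩
    · exact ⟨k, hk.mul e a⟩
    · by_cases hj : ∃ l, e l = j
      · obtain ⟨l, rfl⟩ := hj
        exact ⟨k + 1, hk.px e l⟩
      · push Not at hj
        exact ⟨k, hk.pd e j hj⟩
  | algebraMap r =>
    rintro w' ⟨k, hk⟩
    refine ⟨k, ?_⟩
    have := hk.mul e (MvPowerSeries.C r)
    convert this using 1
    refine LinearMap.ext fun z => ?_
    rw [Module.End.mul_apply, Module.End.mul_apply, LinearMap.mulLeft_apply,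
      ← MvPowerSeries.smul_eq_C_mul]
    rfl
  | add x y _ _ hx hy =>
    rintro w' hw'
    obtain ⟨k1, h1⟩ := hx w' hw'
    obtain ⟨k2, h2⟩ := hy w' hw'
    refine ⟨max k1 k2, ?_⟩
    rw [add_mul]
    exact (h1.mono e (le_max_left _ _)).add e (h2.mono e (le_max_right _ _))
  | mul x y _ _ hx hy =>
    rintro w' hw'
    rw [mul_assoc]
    exact hx _ (hy _ hw')

theorem NF.mem {k : ℕ} : ∀ {w : Module.End ℂ (PS n)}, NF e k w → w ∈ DD n := by
  induction k with
  | zero => intro w h; exact h.1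
  | succ k ih =>
    rintro w ⟨w0, u, h0, hu, hw⟩
    have : w = w0 + ∑ l, ((MvPowerSeries.pderiv ℂ (e l) : Derivation ℂ (PS n) (PS n)) :
      PS n →ₗ[ℂ] PS n) * u l := by
      refine LinearMap.ext fun z => ?_
      rw [hw, LinearMap.add_apply, LinearMap.sum_apply]
      rfl
    rw [this]
    exact Subalgebra.add_mem _ h0.1 (Subalgebra.sum_mem _ fun l _ =>
      Subalgebra.mul_mem _ (pd_mem _) (ih (hu l)))

/-- **The decomposition of an operator.** -/
theorem decomp {w : Module.End ℂ (PS n)} (hw : w ∈ DD n) :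
    ∃ (w0 : Module.End ℂ (PS n)) (u : Fin c → Module.End ℂ (PS n)),
      (∀ d z, Fil e d z → Fil e d (w0 z)) ∧ (∀ l, u l ∈ DD n) ∧
      ∀ z, w z = w0 z + ∑ l, MvPowerSeries.pderiv ℂ (e l) (u l z) := by
  have h1 : W0 e (1 : Module.End ℂ (PS n)) := ⟨Subalgebra.one_mem _, fun d z hz => hz⟩
  obtain ⟨k, hk⟩ := nf_all e hw 1 ⟨0, h1⟩
  rw [mul_one] at hk
  obtain ⟨w0, u, h0, hu, hw⟩ := hk.succ e
  exact ⟨w0, u, h0.2, fun l => (hu l).mem e, hw⟩

section family

variable (F : PS n)

/-- `x m = F ^ (m - N) * V m` for `m ≥ N` -/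
def Ff (x : ℕ → PS n) : Prop :=
  ∃ (N : ℕ) (V : Polynomial (PS n)), ∀ m : ℕ, N ≤ m → x m = F ^ (m - N) * V.eval (m : PS n)

theorem Ff_add {x y : ℕ → PS n} (hx : Ff F x) (hy : Ff F y) : Ff F fun m => x m + y m := by
  obtain ⟨N, V, h⟩ := hx
  obtain ⟨M, W, h'⟩ := hy
  refine ⟨N + M, Polynomial.C (F ^ M) * V + Polynomial.C (F ^ N) * W, fun m hm => ?_⟩
  beta_reduce
  rw [h m (by omega), h' m (by omega), Polynomial.eval_add, Polynomial.eval_mul,
    Polynomial.eval_mul, Polynomial.eval_C, Polynomial.eval_C]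
  have e1 : F ^ (m - N) = F ^ (m - (N + M)) * F ^ M := by
    rw [← pow_add]
    congr 1
    omega
  have e2 : F ^ (m - M) = F ^ (m - (N + M)) * F ^ N := by
    rw [← pow_add]
    congr 1
    omega
  rw [e1, e2]
  ring

theorem Ff_mul {x : ℕ → PS n} (hx : Ff F x) (W : Polynomial (PS n)) :
    Ff F fun m => W.eval (m : PS n) * x m := by
  obtain ⟨N, V, h⟩ := hx
  refine ⟨N, W * V, fun m hm => ?_⟩
  beta_reduce
  rw [h m hm, Polynomial.eval_mul]
  ring

/-- the operator preserves the form -/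
def FP (w : Module.End ℂ (PS n)) : Prop :=
  ∀ U : Polynomial (PS n), Ff F fun m => w (F ^ m * U.eval (m : PS n))

theorem FP_of {w : Module.End ℂ (PS n)} (h : ∀ g : PS n, Ff F fun m => w (F ^ m * g)) :
    FP F w := by
  intro U
  induction U using Polynomial.induction_on' with
  | add p q hp hq =>
    have h1 := Ff_add F hp hq
    have e : (fun m : ℕ => w (F ^ m * (p + q).eval (m : PS n))) = fun m : ℕ =>
        w (F ^ m * p.eval (m : PS n)) + w (F ^ m * q.eval (m : PS n)) := by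
      funext m
      rw [Polynomial.eval_add, mul_add, map_add]
    rw [e]
    exact h1
  | monomial n a =>
    have h1 := Ff_mul F (h a) (Polynomial.X ^ n)
    have e : (fun m : ℕ => w (F ^ m * (Polynomial.monomial n a).eval (m : PS _))) = fun m : ℕ =>
        (Polynomial.X ^ n : Polynomial (PS _)).eval (m : PS _) * w (F ^ m * a) := by
      funext m
      rw [Polynomial.eval_monomial, Polynomial.eval_pow, Polynomial.eval_X]
      have e1 : F ^ m * (a * (m : PS _) ^ n) = ((m : ℂ) ^ n) • (F ^ m * a) := by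
        rw [MvPowerSeries.smul_eq_C_mul, map_pow, map_natCast]
        ring
      rw [e1, map_smul, MvPowerSeries.smul_eq_C_mul, map_pow, map_natCast]
    rw [e]
    exact h1

theorem FP_mulLeft (p : PS n) : FP F (LinearMap.mulLeft ℂ p) := by
  intro U
  refine ⟨0, Polynomial.C p * U, fun m _ => ?_⟩
  beta_reduce
  rw [LinearMap.mulLeft_apply, Polynomial.eval_mul, Polynomial.eval_C, Nat.sub_zero]
  ring

theorem FP_pderiv (i : Fin n) : FP F ((MvPowerSeries.pderiv ℂ i : Derivation ℂ (PS n) (PS n)) :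
    PS n →ₗ[ℂ] PS n) := by
  apply FP_of
  intro g
  refine ⟨1, Polynomial.C (F * MvPowerSeries.pderiv ℂ i g) +
    Polynomial.X * Polynomial.C (g * MvPowerSeries.pderiv ℂ i F), fun m hm => ?_⟩
  obtain ⟨k, rfl⟩ : ∃ k, m = k + 1 := ⟨m - 1, by omega⟩
  rw [Polynomial.eval_add, Polynomial.eval_mul, Polynomial.eval_C, Polynomial.eval_C,
    Polynomial.eval_X]
  change MvPowerSeries.pderiv ℂ i (F ^ (k + 1) * g) = _
  rw [Derivation.leibniz, Derivation.leibniz_pow]
  simp only [smul_eq_mul, nsmul_eq_mul, Nat.add_sub_cancel]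
  ring

theorem FP_comp {w w' : Module.End ℂ (PS n)} (h : FP F w) (h' : FP F w') : FP F (w * w') := by
  intro U
  obtain ⟨M, W, hW⟩ := h' U
  obtain ⟨N, V, hV⟩ := h (W.comp (Polynomial.X + Polynomial.C (M : PS n)))
  refine ⟨M + N, V.comp (Polynomial.X - Polynomial.C (M : PS n)), fun m hm => ?_⟩
  obtain ⟨k, rfl⟩ : ∃ k, m = k + M := ⟨m - M, by omega⟩
  have h1 := hV k (by omega)
  have h2 := hW (k + M) (by omega)
  beta_reduce at h1 h2 ⊢
  rw [Module.End.mul_apply, h2]
  rw [Polynomial.eval_comp, Polynomial.eval_add, Polynomial.eval_X, Polynomial.eval_C] at h1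
  rw [Polynomial.eval_comp, Polynomial.eval_sub, Polynomial.eval_X, Polynomial.eval_C,
    Nat.add_sub_cancel, Nat.cast_add, h1]
  congr 2
  · omega
  · ring

theorem FP_all {w : Module.End ℂ (PS n)} (hw : w ∈ DD n) : FP F w := by
  unfold DD at hw
  induction hw using Algebra.adjoin_induction with
  | mem x hx =>
    rcases hx with ⟨i, rfl⟩ | ⟨i, rfl⟩
    · exact FP_mulLeft F _
    · exact FP_pderiv F i
  | algebraMap r =>
    intro U
    refine ⟨0, Polynomial.C (MvPowerSeries.C r) * U, fun m _ => ?_⟩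
    beta_reduce
    rw [Module.algebraMap_end_apply, Polynomial.eval_mul, Polynomial.eval_C, Nat.sub_zero,
      MvPowerSeries.smul_eq_C_mul]
    ring
  | add x y _ _ hx hy =>
    intro U
    exact Ff_add F (hx U) (hy U)
  | mul x y _ _ hx hy => exact FP_comp F hx hy

theorem fam_pow {w : Module.End ℂ (PS n)} (hw : w ∈ DD n) :
    ∃ (N : ℕ) (V : Polynomial (PS n)), ∀ m : ℕ, N ≤ m →
      w (F ^ m) = F ^ (m - N) * V.eval (m : PS n) := by
  obtain ⟨N, V, h⟩ := FP_all F hw 1
  refine ⟨N, V, fun m hm => ?_⟩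
  have := h m hm
  beta_reduce at this
  rw [Polynomial.eval_one, mul_one] at this
  exact this

end family

end Pool.Agent.U841.SC
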