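import Pool.Agent.U841.SC.Root
import Pool.Agent.U841.SC.Defs
import Pool.Agent.U841.SN.Assem
import Pool.Agent.W574.CN.Gen

set_option autoImplicit false

/-! # Functional equations in formal coordinates -/

namespace Pool.Agent.U841.SC

open MvPolynomial Pool.Agent.U841.SN Pool.Agent.H628R4.TP

variable {n : ℕ}

/-- the chain rule -/
theorem chain (S : MvPolynomial (Fin n) ℂ →ₐ[ℂ] PS n) (j : Fin n) (g : MvPolynomial (Fin n) ℂ) :
    MvPowerSeries.pderiv ℂ j (S g) =
      ∑ k, S (pderiv k g) * MvPowerSeries.pderiv ℂ j (S (X k)) := by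
  classical
  induction g using MvPolynomial.induction_on with
  | C a =>
    have h1 : S (C a) = MvPowerSeries.C a := S.commutes a
    rw [h1, MvPowerSeries.pderiv_C]
    symm
    refine Finset.sum_eq_zero fun k _ => ?_
    rw [pderiv_C, map_zero, zero_mul]
  | add p q hp hq =>
    rw [map_add, map_add, hp, hq, ← Finset.sum_add_distrib]
    refine Finset.sum_congr rfl fun k _ => ?_
    rw [map_add, map_add, add_mul]
  | mul_X p k hp =>
    rw [map_mul, Derivation.leibniz, hp]
    have h1 : ∀ m, S (pderiv m (p * X k)) * MvPowerSeries.pderiv ℂ j (S (X m)) =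
        (if m = k then S p * MvPowerSeries.pderiv ℂ j (S (X k)) else 0) +
          S (X k) * (S (pderiv m p) * MvPowerSeries.pderiv ℂ j (S (X m))) := by
      intro m
      rw [Derivation.leibniz, smul_eq_mul, smul_eq_mul, map_add, map_mul, map_mul, pderiv_X]
      by_cases h : m = k
      · subst h
        rw [if_pos rfl, Pi.single_eq_same, map_one]
        ring
      · rw [if_neg h, Pi.single_eq_of_ne (Ne.symm h), map_zero]
        ring
    rw [Finset.sum_congr rfl fun m _ => h1 m, Finset.sum_add_distrib, Finset.sum_ite_eq',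
      if_pos (Finset.mem_univ k), ← Finset.mul_sum, smul_eq_mul, smul_eq_mul]

/-- the inverse of the Jacobian matrix -/
theorem exists_inv (S : MvPolynomial (Fin n) ℂ →ₐ[ℂ] PS n)
    (hdet : (Matrix.of fun i j : Fin n =>
      MvPowerSeries.coeff (Finsupp.single j 1) (S (X i))).det ≠ 0) :
    ∃ K : Fin n → Fin n → PS n, ∀ i k,
      ∑ j, K i j * MvPowerSeries.pderiv ℂ j (S (X k)) = if i = k then 1 else 0 := by
  classical
  set M : Matrix (Fin n) (Fin n) (PS n) :=
    Matrix.of fun j k => MvPowerSeries.pderiv ℂ j (S (X k)) with hM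
  have h1 : MvPowerSeries.constantCoeff M.det ≠ 0 := by
    rw [RingHom.map_det]
    have h2 : (MvPowerSeries.constantCoeff (σ := Fin n) (R := ℂ)).mapMatrix M =
        (Matrix.of fun i j : Fin n =>
          MvPowerSeries.coeff (Finsupp.single j 1) (S (X i))).transpose := by
      ext j k
      rw [RingHom.mapMatrix_apply, Matrix.map_apply, Matrix.transpose_apply, hM, Matrix.of_apply,
        Matrix.of_apply, ← MvPowerSeries.coeff_zero_eq_constantCoeff_apply,
        MvPowerSeries.coeff_pderiv, zero_add]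
      simp
    rw [h2, Matrix.det_transpose]
    exact hdet
  have h3 : IsUnit M.det := by
    rw [MvPowerSeries.isUnit_iff_constantCoeff]
    exact isUnit_iff_ne_zero.2 h1
  refine ⟨fun i j => (M⁻¹ : Matrix (Fin n) (Fin n) (PS n)) i j, fun i k => ?_⟩
  have h4 := congrFun (congrFun (Matrix.nonsing_inv_mul M h3) i) k
  rw [Matrix.mul_apply, Matrix.one_apply] at h4
  exact h4

/-- **Operators in formal coordinates.** -/
theorem transport (S : MvPolynomial (Fin n) ℂ →ₐ[ℂ] PS n)
    (hdet : (Matrix.of fun i j : Fin n =>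
      MvPowerSeries.coeff (Finsupp.single j 1) (S (X i))).det ≠ 0)
    (Q : Module.End ℂ (MvPolynomial (Fin n) ℂ)) (hQ : Q ∈ weylS (Fin n)) :
    ∃ Q' ∈ DD n, ∀ g, S (Q g) = Q' (S g) := by
  classical
  obtain ⟨K, hK⟩ := exists_inv S hdet
  unfold weylS at hQ
  induction hQ using Algebra.adjoin_induction with
  | mem x hx =>
    rcases hx with ⟨i, rfl⟩ | ⟨i, rfl⟩
    · refine ⟨LinearMap.mulLeft ℂ (S (X i)), mul_mem _, fun g => ?_⟩
      rw [LinearMap.mulLeft_apply, LinearMap.mulLeft_apply, map_mul]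
    · refine ⟨∑ j, LinearMap.mulLeft ℂ (K i j) * ((MvPowerSeries.pderiv ℂ j :
        Derivation ℂ (PS n) (PS n)) : PS n →ₗ[ℂ] PS n), Subalgebra.sum_mem _ fun j _ =>
          Subalgebra.mul_mem _ (mul_mem _) (pd_mem j), fun g => ?_⟩
      change S (pderiv i g) = _
      rw [LinearMap.sum_apply]
      have h1 : ∀ j, (LinearMap.mulLeft ℂ (K i j) * ((MvPowerSeries.pderiv ℂ j :
          Derivation ℂ (PS n) (PS n)) : PS n →ₗ[ℂ] PS n)) (S g) =
          ∑ k, S (pderiv k g) * (K i j * MvPowerSeries.pderiv ℂ j (S (X k))) := by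
        intro j
        rw [Module.End.mul_apply, LinearMap.mulLeft_apply]
        change K i j * MvPowerSeries.pderiv ℂ j (S g) = _
        rw [chain, Finset.mul_sum]
        exact Finset.sum_congr rfl fun k _ => by ring
      rw [Finset.sum_congr rfl fun j _ => h1 j, Finset.sum_comm]
      have h2 : ∀ k, ∑ j, S (pderiv k g) * (K i j * MvPowerSeries.pderiv ℂ j (S (X k))) =
          if i = k then S (pderiv k g) else 0 := by
        intro k
        rw [← Finset.mul_sum, hK]
        split_ifs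
        · rw [mul_one]
        · rw [mul_zero]
      rw [Finset.sum_congr rfl fun k _ => h2 k, Finset.sum_ite_eq, if_pos (Finset.mem_univ i)]
  | algebraMap r =>
    refine ⟨algebraMap ℂ _ r, Subalgebra.algebraMap_mem _ r, fun g => ?_⟩
    rw [Module.algebraMap_end_apply, Module.algebraMap_end_apply, map_smul]
  | add x y _ _ hx hy =>
    obtain ⟨x', hx1, hx2⟩ := hx
    obtain ⟨y', hy1, hy2⟩ := hy
    refine ⟨x' + y', Subalgebra.add_mem _ hx1 hy1, fun g => ?_⟩
    rw [LinearMap.add_apply, map_add, hx2, hy2, LinearMap.add_apply]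
  | mul x y _ _ hx hy =>
    obtain ⟨x', hx1, hx2⟩ := hx
    obtain ⟨y', hy1, hy2⟩ := hy
    refine ⟨x' * y', Subalgebra.mul_mem _ hx1 hy1, fun g => ?_⟩
    rw [Module.End.mul_apply, hx2, hy2, Module.End.mul_apply]

theorem cc_pull (Z : Centre n) (F : MvPolynomial (Fin n) ℂ) :
    MvPowerSeries.constantCoeff (pull Z F) = eval Z.p F := by
  rw [pull, Pool.Agent.W574.CN.constCoeff_aeval]
  congr 2
  funext i
  exact Z.θ_zero i

theorem fil_pull (Z : Centre n) (F : MvPolynomial (Fin n) ℂ) :
    Fil Z.e (multZ Z F) (pull Z F) := by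
  intro α hα
  by_contra h
  exact absurd (Nat.sInf_le (show xd Z.e α ∈ {k | ∃ α, xd Z.e α = k ∧
    MvPowerSeries.coeff α (pull Z F) ≠ 0} from ⟨α, rfl, h⟩)) (by rw [multZ] at hα; omega)

theorem multZ_zero (Z : Centre n) (F : MvPolynomial (Fin n) ℂ) (h : eval Z.p F ≠ 0) :
    multZ Z F = 0 := by
  have h1 : (0 : ℕ) ∈ {k | ∃ α, xd Z.e α = k ∧ MvPowerSeries.coeff α (pull Z F) ≠ 0} := by
    refine ⟨0, by simp [xd], ?_⟩
    rw [MvPowerSeries.coeff_zero_eq_constantCoeff_apply, cc_pull]
    exact h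
  have h2 := Nat.sInf_le h1
  have h3 : multZ Z F ≤ 0 := h2
  omega

/-- **The root of a centre.** -/
theorem centre_root (F : MvPolynomial (Fin n) ℂ) (q : Fin n → ℂ) (b : Polynomial ℂ)
    (hb : AlgLoc (shiftP q F) b) (ν N : ℕ) (hZ : CentreNear F q ν N) :
    b.eval (-((ν : ℂ) / N)) = 0 := by
  classical
  obtain ⟨H, P, hH, hP⟩ := hb
  obtain ⟨Z, ⟨hc2, K, g, δ, m, u, hu, hgh, hδ, hm, hNC, hns, hG⟩, hZH, rfl, rfl⟩ :=
    hZ (shiftP (-q) H) (by
      rw [eval_shiftP, add_neg_cancel, eval_zero]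
      exact hH)
  let S : MvPolynomial (Fin n) ℂ →ₐ[ℂ] PS n := aeval fun i => Z.θ i - MvPowerSeries.C (q i)
  have hSX : ∀ i, S (X i) = Z.θ i - MvPowerSeries.C (q i) := fun i => aeval_X _ i
  have hS : ∀ g, S (shiftP q g) = pull Z g := by
    intro g
    have h : S.comp (shiftP q) = pull Z := by
      refine algHom_ext fun i => ?_
      rw [AlgHom.comp_apply, shiftP_X, map_add, hSX, pull, aeval_X]
      have h1 : S (C (q i)) = MvPowerSeries.C (q i) := S.commutes (q i)
      rw [h1, sub_add_cancel]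
    exact congrArg (fun φ => φ g) h
  have hdet : (Matrix.of fun i j : Fin n =>
      MvPowerSeries.coeff (Finsupp.single j 1) (S (X i))).det ≠ 0 := by
    have h1 : (Matrix.of fun i j : Fin n =>
        MvPowerSeries.coeff (Finsupp.single j 1) (S (X i))) =
        Matrix.of fun i j : Fin n => MvPowerSeries.coeff (Finsupp.single j 1) (Z.θ i) := by
      ext i j
      rw [Matrix.of_apply, Matrix.of_apply, hSX, map_sub, MvPowerSeries.coeff_C, if_neg, sub_zero]
      exact Finsupp.single_ne_zero.2 one_ne_zero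
    rw [h1]
    exact Z.det_ne
  have hSH : MvPowerSeries.constantCoeff (S H) ≠ 0 := by
    have h1 : MvPowerSeries.constantCoeff (S H) = eval Z.p (shiftP (-q) H) := by
      rw [eval_shiftP]
      change MvPowerSeries.constantCoeff (aeval _ H) = _
      rw [Pool.Agent.W574.CN.constCoeff_aeval]
      congr 2
      funext i
      rw [map_sub, Z.θ_zero, MvPowerSeries.constantCoeff_C, Pi.add_apply, Pi.neg_apply,
        sub_eq_add_neg]
    rw [h1]
    exact hZH
  choose Q' hQ1 hQ2 using fun m => transport S hdet (P m).1 (P m).2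
  have hG0 : initZ Z F ≠ 0 := by
    rw [hG]
    refine mul_ne_zero ?_ (Finset.prod_ne_zero_iff.2 fun t _ => pow_ne_zero _ (hNC.ne hc2 t))
    rw [Ne, ← C_0 (R := ℂ) (σ := Fin Z.c)]
    exact fun h => hu (C_injective _ _ h)
  have hdeg : multZ Z F = ∑ k, m k * δ k := by
    refine (hx_hom Z.e (multZ Z F) (pull Z F)).inj_right ?_ hG0
    change (initZ Z F).IsHomogeneous _
    rw [hG]
    have h1 : (∏ k, g k ^ m k).IsHomogeneous (∑ k, m k * δ k) := by
      refine IsHomogeneous.prod _ _ _ fun k _ => ?_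
      rw [mul_comm]
      exact (hgh k).pow _
    exact h1.C_mul u
  have hK : 0 < K := by
    rcases hns with ⟨k, _⟩ | h
    · have := k.2
      omega
    · omega
  have hd : 0 < multZ Z F := by
    rw [hdeg]
    exact Finset.sum_pos (fun k _ => Nat.mul_pos (hm k) (hδ k)) ⟨⟨0, hK⟩, Finset.mem_univ _⟩
  obtain ⟨r, N, V, hr, hV, hid⟩ := extS Z.e (pull Z F) (S H) (multZ Z F) hd (fil_pull Z F) hG0 hSH
    b P.support Q' hQ1 (fun s => by
      have h1 := congrArg S (hP s)
      rw [map_mul, map_mul, map_pow, hS] at h1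
      have h2 : S (C (b.eval (s : ℂ))) = MvPowerSeries.C (b.eval (s : ℂ)) := S.commutes _
      rw [h2] at h1
      rw [h1, Finsupp.sum, map_sum]
      refine Finset.sum_congr rfl fun m _ => ?_
      rw [map_smul, hQ2, map_pow, hS]) (-((Z.c : ℂ) / (multZ Z F : ℕ)))
  have hG' : hx Z.e (multZ Z F) (pull Z F) = C u * prodPow g m := hG
  rw [hG'] at hid
  have h := exc_of_id hc2 g δ hgh hδ hNC m hm (by
    rcases hns with h | h
    · exact Or.inl h
    · rw [Fintype.card_fin]
      exact Or.inr h) u (r * b.eval (-((Z.c : ℂ) / (multZ Z F : ℕ)))) hu N V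
    (by rw [← hdeg]; exact hV) (by rw [← hdeg]; exact hid)
  exact (mul_eq_zero.1 h).resolve_left hr

end Pool.Agent.U841.SC
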