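import Pool.Agent.U841.SC.Exp
import Pool.Agent.U841.SN.Local

set_option autoImplicit false

/-! # The root `-c/d` from the initial forms along a smooth centre of codimension `c` -/

namespace Pool.Agent.U841.SC

open MvPolynomial Pool.Agent.U841.SN Pool.Agent.H628R4.TP

variable {n c : ℕ} {T : Type} [Fintype T]

/-- **From the identity for the product of the initial forms.** -/
theorem exc_of_id (hc2 : 2 ≤ c) (g : T → MvPolynomial (Fin c) ℂ) (δ : T → ℕ)
    (hgh : ∀ t, (g t).IsHomogeneous (δ t)) (hδ : ∀ t, 0 < δ t) (hNC : NormalCrossings g)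
    (a : T → ℕ) (ha : ∀ t, 0 < a t) (hc : (∃ t, 2 ≤ δ t) ∨ c < Fintype.card T) (u r : ℂ)
    (hu : u ≠ 0) (N : ℕ) (V : Fin c → MvPolynomial (Fin c) ℂ)
    (hV : ∀ l, (V l).IsHomogeneous ((∑ t, a t * δ t) * N + 1))
    (hid : C u * prodPow g a * ∑ l, pderiv l (V l) + C (-((c : ℂ) / (∑ t, a t * δ t : ℕ)) - N) *
      ∑ l, V l * pderiv l (C u * prodPow g a) = (C u * prodPow g a) ^ (N + 1) * C r) : r = 0 := by
  classical
  -- an enumeration
  obtain ⟨t0, ht0⟩ : ∃ t0 : T, 2 ≤ δ t0 ∨ ((∀ t, δ t = 1) ∧ c < Fintype.card T) := by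
    by_cases h2 : ∃ t, 2 ≤ δ t
    · obtain ⟨t, ht⟩ := h2
      exact ⟨t, Or.inl ht⟩
    · have h3 := hc.resolve_left h2
      have h4 : 0 < Fintype.card T := by omega
      obtain ⟨t⟩ := Fintype.card_pos_iff.1 h4
      refine ⟨t, Or.inr ⟨fun t => ?_, h3⟩⟩
      by_contra h5
      have := hδ t
      exact h2 ⟨t, by omega⟩
  obtain ⟨q, e, he⟩ := exists_enum t0
  let e' : ℕ → T := fun i => if h : i < q + 1 then e ⟨i, h⟩ else t0
  have he' : ∀ i : Fin (q + 1), e' i = e i := fun i => dif_pos i.2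
  have he0 : e' 0 = t0 := by
    have := he' 0
    rw [he] at this
    exact this
  have hcard : Fintype.card T = q + 1 := by
    rw [← Fintype.card_congr e, Fintype.card_fin]
  have hprod : prodPow g a = ∏ i ∈ Finset.range (q + 1), g (e' i) ^ a (e' i) := by
    rw [prodPow, Finset.prod_range]
    refine (Fintype.prod_equiv e _ _ fun i => ?_).symm
    rw [he']
  have hsum : ∑ t, a t * δ t = ∑ i ∈ Finset.range (q + 1), a (e' i) * δ (e' i) := by
    rw [Finset.sum_range]
    refine (Fintype.sum_equiv e _ _ fun i => ?_).symm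
    rw [he']
  have hCU : (C u : MvPolynomial (Fin c) ℂ) ≠ 0 := by
    rw [Ne, ← C_0 (R := ℂ) (σ := Fin c)]
    exact fun h => hu (C_injective _ _ h)
  have hid' : prodPow g a * ∑ l, pderiv l (V l) + C (-((c : ℂ) / (∑ t, a t * δ t : ℕ)) - N) *
      ∑ l, V l * pderiv l (prodPow g a) = prodPow g a ^ (N + 1) * C (u ^ N * r) := by
    apply mul_left_cancel₀ hCU
    have h1 : ∑ l, V l * pderiv l (C u * prodPow g a) =
        C u * ∑ l, V l * pderiv l (prodPow g a) := by
      rw [Finset.mul_sum]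
      refine Finset.sum_congr rfl fun l _ => ?_
      rw [pderiv_C_mul]
      ring
    rw [h1] at hid
    rw [map_mul C (u ^ N), map_pow]
    linear_combination hid
  have h := root_id (fun i => g (e' i)) (fun i => δ (e' i)) (fun i => hgh _) (fun i => hδ _) q
    (nc_of_enum g hNC q e e' he') hc2 (by
      rw [he0]
      rcases ht0 with h | ⟨h1, h2⟩
      · exact Or.inl h
      · exact Or.inr ⟨fun i _ => h1 _, by omega⟩) (fun i => a (e' i)) (fun i _ => ha _)
    (prodPow g a) hprod _ hsum _ N V hV hid'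
  exact (mul_eq_zero.1 h).resolve_left (pow_ne_zero _ hu)

end Pool.Agent.U841.SC
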