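import Pool.Agent.U841.SN.Exp

set_option autoImplicit false

/-! # Homogeneous parts of formal power series along a coordinate subspace -/

namespace Pool.Agent.U841.SC

open Pool.Agent.U841.SN

variable {n c : ℕ}

/-- The power series in `n` variables. -/
abbrev PS (n : ℕ) : Type := MvPowerSeries (Fin n) ℂ

/-- The homogeneous part of degree `k` of a power series. -/
noncomputable def hp (k : ℕ) : PS c →ₗ[ℂ] MvPolynomial (Fin c) ℂ :=
  ∑ β ∈ (Finset.univ : Finset (Fin c)).finsuppAntidiag k,
    (MvPolynomial.monomial β).comp (MvPowerSeries.coeff (R := ℂ) β)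

theorem coeff_hp (k : ℕ) (g : PS c) (β : Fin c →₀ ℕ) :
    MvPolynomial.coeff β (hp k g) = if β.degree = k then MvPowerSeries.coeff β g else 0 := by
  classical
  rw [hp, LinearMap.sum_apply, MvPolynomial.coeff_sum]
  have h1 : ∀ γ ∈ (Finset.univ : Finset (Fin c)).finsuppAntidiag k,
      MvPolynomial.coeff β (((MvPolynomial.monomial γ).comp (MvPowerSeries.coeff (R := ℂ) γ)) g) =
      if γ = β then MvPowerSeries.coeff γ g else 0 := by
    intro γ _
    rw [LinearMap.comp_apply, MvPolynomial.coeff_monomial]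
  rw [Finset.sum_congr rfl h1, Finset.sum_ite_eq']
  refine if_congr ?_ rfl rfl
  rw [Finset.mem_finsuppAntidiag, Finsupp.degree_eq_sum]
  exact ⟨fun h => h.1, fun h => ⟨h, Finset.subset_univ _⟩⟩

theorem hp_hom (k : ℕ) (g : PS c) : (hp k g).IsHomogeneous k := by
  intro β hβ
  rw [coeff_hp] at hβ
  have h : β.degree = k := by
    by_contra h
    exact hβ (if_neg h)
  rwa [Finsupp.degree_eq_weight_one] at h

theorem hp_mul (g g' : PS c) (k : ℕ) :
    hp k (g * g') = ∑ j ∈ Finset.range (k + 1), hp j g * hp (k - j) g' := by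
  classical
  ext β
  rw [coeff_hp, MvPolynomial.coeff_sum]
  by_cases hβ : β.degree = k
  · rw [if_pos hβ, MvPowerSeries.coeff_mul]
    have h1 : ∀ j ∈ Finset.range (k + 1), MvPolynomial.coeff β (hp j g * hp (k - j) g') =
        ∑ x ∈ Finset.HasAntidiagonal.antidiagonal β, if x.1.degree = j then
          MvPowerSeries.coeff x.1 g * MvPowerSeries.coeff x.2 g' else 0 := by
      intro j hj
      rw [Finset.mem_range] at hj
      rw [MvPolynomial.coeff_mul]
      refine Finset.sum_congr rfl fun x hx => ?_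
      rw [Finset.HasAntidiagonal.mem_antidiagonal] at hx
      rw [coeff_hp, coeff_hp]
      by_cases h : x.1.degree = j
      · have h2 : x.2.degree = k - j := by
          have h3 := congrArg Finsupp.degree hx
          rw [map_add, hβ, h] at h3
          omega
        rw [if_pos h, if_pos h2, if_pos h]
      · rw [if_neg h, if_neg h, zero_mul]
    rw [Finset.sum_congr rfl h1, Finset.sum_comm]
    refine Finset.sum_congr rfl fun x hx => ?_
    rw [Finset.HasAntidiagonal.mem_antidiagonal] at hx
    rw [Finset.sum_ite_eq, if_pos]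
    rw [Finset.mem_range]
    have h3 := congrArg Finsupp.degree hx
    rw [map_add, hβ] at h3
    omega
  · rw [if_neg hβ]
    symm
    refine Finset.sum_eq_zero fun j hj => ?_
    rw [Finset.mem_range] at hj
    have h1 : (hp j g * hp (k - j) g').IsHomogeneous k := by
      have := (hp_hom j g).mul (hp_hom (k - j) g')
      rwa [show j + (k - j) = k by omega] at this
    by_contra hne
    have h2 := h1 hne
    apply hβ
    rw [Finsupp.degree_eq_weight_one]
    exact h2

theorem hp_zero (g : PS c) : hp 0 g = MvPolynomial.C (MvPowerSeries.constantCoeff g) := by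
  classical
  ext β
  rw [coeff_hp, MvPolynomial.coeff_C]
  by_cases h : β = 0
  · rw [h, map_zero, if_pos rfl, if_pos rfl]
    rfl
  · rw [if_neg (fun h2 => h ((Finsupp.degree_eq_zero_iff β).1 h2)), if_neg (Ne.symm h)]

theorem hp_C_mul (k : ℕ) (r : ℂ) (g : PS c) :
    hp k (MvPowerSeries.C r * g) = MvPolynomial.C r * hp k g := by
  rw [← MvPowerSeries.smul_eq_C_mul, map_smul, MvPolynomial.smul_eq_C_mul]

theorem hp_one (k : ℕ) : hp k (1 : PS c) = if k = 0 then 1 else 0 := by
  classical
  ext β
  rw [coeff_hp, MvPowerSeries.coeff_one]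
  split_ifs with h1 h2 h3 h4
  · rw [h2]
    exact MvPolynomial.coeff_zero_one.symm
  · exact absurd (by rw [← h1, h2, map_zero]) h3
  · rw [MvPolynomial.coeff_one, if_neg (Ne.symm h2)]
  · exact (MvPolynomial.coeff_zero _).symm
  · rw [MvPolynomial.coeff_one, if_neg]
    rintro rfl
    apply h1
    rw [map_zero]
    omega
  · exact (MvPolynomial.coeff_zero _).symm

/-- The part of degree `k` in `x` of `g(x, 0)`, where the `x` are the variables `e`. -/
noncomputable def hx (e : Fin c ↪ Fin n) (k : ℕ) : PS n →ₗ[ℂ] MvPolynomial (Fin c) ℂ :=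
  (hp k).comp (MvPowerSeries.killCompl (R := ℂ) e).toLinearMap

variable (e : Fin c ↪ Fin n)

theorem coeff_hx (k : ℕ) (g : PS n) (β : Fin c →₀ ℕ) :
    MvPolynomial.coeff β (hx e k g) =
      if β.degree = k then MvPowerSeries.coeff (β.embDomain e) g else 0 := by
  rw [hx, LinearMap.comp_apply, coeff_hp]
  rfl

theorem hx_hom (k : ℕ) (g : PS n) : (hx e k g).IsHomogeneous k := hp_hom k _

theorem hx_mul (g g' : PS n) (k : ℕ) :
    hx e k (g * g') = ∑ j ∈ Finset.range (k + 1), hx e j g * hx e (k - j) g' := by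
  rw [hx, LinearMap.comp_apply, AlgHom.toLinearMap_apply, map_mul, hp_mul]
  rfl

theorem hx_zero (g : PS n) : hx e 0 g = MvPolynomial.C (MvPowerSeries.constantCoeff g) := by
  rw [hx, LinearMap.comp_apply, hp_zero]
  congr 1

theorem hx_C_mul (k : ℕ) (r : ℂ) (g : PS n) :
    hx e k (MvPowerSeries.C r * g) = MvPolynomial.C r * hx e k g := by
  rw [← MvPowerSeries.smul_eq_C_mul, map_smul, MvPolynomial.smul_eq_C_mul]

/-- the derivatives -/
theorem hx_pderiv (k : ℕ) (l : Fin c) (g : PS n) :
    hx e k (MvPowerSeries.pderiv ℂ (e l) g) = MvPolynomial.pderiv l (hx e (k + 1) g) := by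
  classical
  ext β
  rw [coeff_hx, MvPolynomial.coeff_pderiv, coeff_hx, MvPowerSeries.coeff_pderiv]
  have h1 : (β + Finsupp.single l 1).degree = β.degree + 1 := by
    rw [map_add, Finsupp.degree_single]
  have h2 : (β + Finsupp.single l 1).embDomain e = β.embDomain e + Finsupp.single (e l) 1 := by
    rw [Finsupp.embDomain_add, Finsupp.embDomain_single]
  have h3 : (β.embDomain e) (e l) = β l := Finsupp.embDomain_apply_self e β l
  rw [h1, h2, h3]
  by_cases h : β.degree = k
  · rw [if_pos h, if_pos (by omega)]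
  · rw [if_neg h, if_neg (by omega), zero_mul]

/-- the degree of a monomial in the variables `e` -/
def xd (α : Fin n →₀ ℕ) : ℕ := ∑ k, α (e k)

theorem xd_add (α β : Fin n →₀ ℕ) : xd e (α + β) = xd e α + xd e β := by
  simp [xd, Finset.sum_add_distrib]

/-- `g` has order at least `d` along the subspace -/
def Fil (d : ℕ) (g : PS n) : Prop := ∀ α, xd e α < d → MvPowerSeries.coeff α g = 0

theorem Fil.mul {d d' : ℕ} {g g' : PS n} (h : Fil e d g) (h' : Fil e d' g') :
    Fil e (d + d') (g * g') := by
  classical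
  intro α hα
  rw [MvPowerSeries.coeff_mul]
  refine Finset.sum_eq_zero fun x hx => ?_
  rw [Finset.HasAntidiagonal.mem_antidiagonal] at hx
  rw [← hx, xd_add] at hα
  by_cases h1 : xd e x.1 < d
  · rw [h _ h1, zero_mul]
  · rw [h' _ (by omega), mul_zero]

theorem Fil.zero (g : PS n) : Fil e 0 g := fun _ h => absurd h (Nat.not_lt_zero _)

theorem Fil.mono {d d' : ℕ} {g : PS n} (h : Fil e d g) (hd : d' ≤ d) : Fil e d' g :=
  fun α hα => h α (by omega)

theorem Fil.add {d : ℕ} {g g' : PS n} (h : Fil e d g) (h' : Fil e d g') : Fil e d (g + g') :=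
  fun α hα => by rw [map_add, h α hα, h' α hα, add_zero]

theorem Fil.pow {d : ℕ} {g : PS n} (h : Fil e d g) (m : ℕ) : Fil e (d * m) (g ^ m) := by
  induction m with
  | zero => exact (Fil.zero e _).mono e (by omega)
  | succ m ih =>
    rw [pow_succ, show d * (m + 1) = d * m + d by ring]
    exact ih.mul e h

theorem Fil.left {d : ℕ} {g : PS n} (h : Fil e d g) (a : PS n) : Fil e d (a * g) := by
  have := (Fil.zero e a).mul e h
  rwa [zero_add] at this

theorem Fil.pderiv {d : ℕ} {g : PS n} (h : Fil e d g) (j : Fin n) (hj : ∀ k, e k ≠ j) :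
    Fil e d (MvPowerSeries.pderiv ℂ j g) := by
  classical
  intro α hα
  rw [MvPowerSeries.coeff_pderiv, h, zero_mul]
  rw [xd_add]
  have : xd e (Finsupp.single j 1) = 0 := by
    refine Finset.sum_eq_zero fun k _ => ?_
    rw [Finsupp.single_apply, if_neg (Ne.symm (hj k))]
  omega

theorem Fil.hx {d : ℕ} {g : PS n} (h : Fil e d g) (k : ℕ) (hk : k < d) : hx e k g = 0 := by
  classical
  ext β
  rw [coeff_hx, MvPolynomial.coeff_zero]
  split_ifs with h1
  · refine h _ ?_
    have h2 : xd e (β.embDomain e) = β.degree := by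
      rw [Finsupp.degree_eq_sum, xd]
      exact Finset.sum_congr rfl fun k _ => Finsupp.embDomain_apply_self e β k
    omega
  · rfl

end Pool.Agent.U841.SC
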