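import Pool.Agent.U841.SN.Glob2

set_option autoImplicit false

/-! # The roots of the components of a hypersurface -/

namespace Pool.Agent.U841.SC

open MvPolynomial Pool.Agent.U841.SN Pool.Agent.H628R4.TP

variable {n : ℕ}

/-- the translation as an isomorphism -/
noncomputable def shiftE (p : Fin n → ℂ) : MvPolynomial (Fin n) ℂ ≃ₐ[ℂ] MvPolynomial (Fin n) ℂ :=
  AlgEquiv.ofAlgHom (shiftP p) (shiftP (-p))
    (by
      refine AlgHom.ext fun F => ?_
      rw [AlgHom.comp_apply, shiftP_shiftP, add_neg_cancel, shiftP_zero]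
      rfl)
    (by
      refine AlgHom.ext fun F => ?_
      rw [AlgHom.comp_apply, shiftP_neg]
      rfl)

theorem shiftE_apply (p : Fin n → ℂ) (F : MvPolynomial (Fin n) ℂ) : shiftE p F = shiftP p F := rfl

/-- a prime factor through a point -/
theorem exists_prime (F : MvPolynomial (Fin n) ℂ) (hF : F ≠ 0) (p : Fin n → ℂ)
    (hp : eval p F = 0) : ∃ q, Prime q ∧ q ∣ F ∧ eval p q = 0 := by
  classical
  obtain ⟨s, hs, hs2⟩ := UniqueFactorizationMonoid.exists_prime_factors F hF
  have h1 : eval p s.prod = 0 := by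
    obtain ⟨u, hu⟩ := hs2
    have h2 := congrArg (eval p) hu
    rw [map_mul, hp] at h2
    refine (mul_eq_zero.1 h2).resolve_right ?_
    exact (u.isUnit.map (eval p)).ne_zero
  rw [map_multiset_prod, Multiset.prod_eq_zero_iff, Multiset.mem_map] at h1
  obtain ⟨q, hq, hq0⟩ := h1
  exact ⟨q, hs q hq, (Multiset.dvd_prod hq).trans hs2.dvd, hq0⟩

variable {T : Type} [Fintype T] {f : T → MvPolynomial (Fin n) ℂ} {a : T → ℕ}

/-- **The root of a component.** -/
theorem str_root (hsq : ∀ t, Squarefree (f t)) (hcop : ∀ s t, s ≠ t → IsRelPrime (f s) (f t))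
    (p : Fin n → ℂ) (b : Polynomial ℂ) (hb : AlgLoc (shiftP p (prodPow f a)) b) (t : T)
    (ht : eval p (f t) = 0) (hat : 0 < a t) : b.eval (-(1 : ℂ) / a t) = 0 := by
  classical
  have hf0 : f t ≠ 0 := (hsq t).ne_zero
  obtain ⟨q, hq, ⟨h, hh⟩, hq0⟩ := exists_prime (f t) hf0 p ht
  have hqh : ¬ q ∣ h := by
    rintro ⟨r, rfl⟩
    exact hq.not_isUnit (hsq t q ⟨r, by rw [hh]; ring⟩)
  set v : MvPolynomial (Fin n) ℂ := h ^ a t * ∏ s ∈ Finset.univ.erase t, f s ^ a s with hv
  have hF : prodPow f a = q ^ a t * v := by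
    rw [prodPow, ← Finset.mul_prod_erase _ _ (Finset.mem_univ t), hh, mul_pow, hv]
    ring
  have hqv : ¬ q ∣ v := by
    intro hd
    rcases hq.dvd_or_dvd hd with hd | hd
    · exact hqh (hq.dvd_of_dvd_pow hd)
    · rw [Prime.dvd_finsetProd_iff hq] at hd
      obtain ⟨s, hs, hd⟩ := hd
      have h1 := hq.dvd_of_dvd_pow hd
      exact hq.not_isUnit (hcop s t (Finset.ne_of_mem_erase hs) h1 ⟨h, hh⟩)
  have hF2 : shiftP p (prodPow f a) = shiftP p q ^ a t * shiftP p v := by
    rw [hF, map_mul, map_pow]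
  have hq2 : Prime (shiftP p q) := by
    have := (MulEquiv.prime_iff (shiftE p).toMulEquiv (p := q)).2 hq
    exact this
  have hd2 : ¬ shiftP p q ∣ shiftP p v := by
    rintro ⟨r, hr⟩
    apply hqv
    refine ⟨shiftP (-p) r, ?_⟩
    have := congrArg (shiftP (-p)) hr
    rwa [shiftP_neg, map_mul (shiftP (-p)), shiftP_neg] at this
  have h := prime_root (shiftP p (prodPow f a)) (shiftP p q) (shiftP p v) (a t) hF2 hq2
    (by rw [cc_shiftP, hq0]) hd2 b hb 0 hat
  rwa [Nat.cast_zero, zero_add] at h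

end Pool.Agent.U841.SC
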