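import Pool.Agent.U841.SC.Pull
import Pool.Agent.U841.SC.Str
import Pool.Agent.U841.SN.Top2

set_option autoImplicit false
set_option linter.unusedSectionVars false

/-! # Zeta functions of hypersurfaces resolved by blow-ups of smooth centres -/

namespace Pool.Agent.U841.SC

open MvPolynomial Pool.Agent.U841.SN Pool.Agent.H628R4.TP Pool.Agent.TH192.DT
  Pool.Agent.R852.BM

variable {n : ℕ} {T : Type} [Fintype T] {f : T → MvPolynomial (Fin n) ℂ}
  (hsq : ∀ t, Squarefree (f t)) (hcop : ∀ s t, s ≠ t → IsRelPrime (f s) (f t))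
  {a : T → ℕ} (ha : ∀ t, 0 < a t)

omit [Fintype T] in
theorem good_near (F : MvPolynomial (Fin n) ℂ) (Z : Centre n) (hZ : ConeNC Z F) :
    CentreNear F Z.p Z.c (multZ Z F) :=
  fun _ hH => ⟨Z, hZ, hH, rfl, rfl⟩

include hsq in
theorem prodPow_ne' (p : Fin n → ℂ) : shiftP p (prodPow f a) ≠ 0 := by
  intro h
  have h1 : prodPow f a = 0 := shiftP_inj p (by rw [h, map_zero])
  rw [prodPow, Finset.prod_eq_zero_iff] at h1
  obtain ⟨t, _, ht⟩ := h1
  exact (hsq t).ne_zero (eq_zero_of_pow_eq_zero ht)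

section global

variable {I : Type} [Fintype I] (Z : I → Centre n) (hZ : ∀ i, ConeNC (Z i) (prodPow f a))

include hsq hcop ha hZ in
/-- **Global: all candidates are roots.** -/
theorem glob_candZ (hu : ∀ t, ¬ IsUnit (f t)) (b : Polynomial ℂ)
    (hb : IsBFunction (prodPow f a) b) (o : I ⊕ T) :
    b.eval (-(nuZ Z T o : ℂ) / mulZ Z (prodPow f a) a o) = 0 := by
  rcases o with i | t
  · have h := centre_root _ (Z i).p b (algLoc_of_global (bfun_shift (Z i).p _ b hb)) _ _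
      (good_near _ (Z i) (hZ i))
    rw [← neg_div] at h
    exact h
  · obtain ⟨p, hp⟩ := exists_zero' (f t) (hu t)
    have h := str_root hsq hcop p b (algLoc_of_global (bfun_shift p _ b hb)) t hp (ha t)
    change b.eval (-((1 : ℕ) : ℂ) / a t) = 0
    rw [Nat.cast_one]
    exact h

include hZ in
theorem nuZ_pos (o : I ⊕ T) : 0 < nuZ Z T o := by
  rcases o with i | t
  · have := (hZ i).1
    change 0 < (Z i).c
    omega
  · exact one_pos

include hsq hcop ha hZ in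
/-- **The poles of the topological zeta function.** -/
theorem glob_topZ (hu : ∀ t, ¬ IsUnit (f t)) (b : Polynomial ℂ) (hb : IsBFunction (prodPow f a) b)
    (χ : Finset (I ⊕ T) → ℤ) (s₀ : ℂ)
    (hs : (topZ (nuZ Z T) (mulZ Z (prodPow f a) a) χ).denom.eval s₀ = 0) : b.eval s₀ = 0 := by
  obtain ⟨J, _, o, _, _, rfl⟩ := Pool.Agent.Y228.RR.pole_topZ' _ _ χ (nuZ_pos Z hZ) s₀ hs
  exact glob_candZ hsq hcop ha Z hZ hu b hb o

include hsq hcop ha hZ in
/-- **The denominators of the motivic zeta function.** -/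
theorem glob_motZ (hu : ∀ t, ¬ IsUnit (f t)) (b : Polynomial ℂ) (hb : IsBFunction (prodPow f a) b)
    {R : Type} [CommRing R] (u : Rˣ) (c : Finset {o // 0 < mulZ Z (prodPow f a) a o} → R) :
    dlZ u (nuZ Z T) (mulZ Z (prodPow f a) a) c ∈ ratU u (RootPairs b) := by
  refine dlZ_mem_of u _ _ c _ fun J _ o _ => ⟨?_, ?_, ?_⟩
  · have := nuZ_pos (T := T) Z hZ o.1
    change -(nuZ Z T o.1 : ℤ) < 0
    omega
  · change (0 : ℤ) < (mulZ Z (prodPow f a) a o.1 : ℤ)
    exact_mod_cast o.2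
  · have h := glob_candZ hsq hcop ha Z hZ hu b hb o.1
    change b.eval (((-(nuZ Z T o.1 : ℤ) : ℤ) : ℂ) / ((mulZ Z (prodPow f a) a o.1 : ℤ) : ℂ)) = 0
    push_cast
    exact h

end global

section local'

variable {I : Type} [Fintype I] (ν N : I → ℕ) (q : Fin n → ℂ)

include hsq hcop ha in
/-- **Local: all candidates are roots.** -/
theorem loc_candZ (hZ : ∀ i, CentreNear (prodPow f a) q (ν i) (N i)) (b : Polynomial ℂ)
    (hb : IsLocalBFunction (shiftP q (prodPow f a)) b) (o : I ⊕ T)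
    (ho : ∀ t, o = Sum.inr t → eval q (f t) = 0) :
    b.eval (-(nuL ν T o : ℂ) / mulL N a o) = 0 := by
  have hb' : AlgLoc (shiftP q (prodPow f a)) b := algLoc_of_local (prodPow_ne' hsq q) hb
  rcases o with i | t
  · have h := centre_root _ q b hb' _ _ (hZ i)
    rw [← neg_div] at h
    exact h
  · have h := str_root hsq hcop q b hb' t (ho t rfl) (ha t)
    change b.eval (-((1 : ℕ) : ℂ) / a t) = 0
    rw [Nat.cast_one]
    exact h

theorem nuL_pos (hZ : ∀ i, CentreNear (prodPow f a) q (ν i) (N i)) (o : I ⊕ T) : 0 < nuL ν T o := by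
  rcases o with i | t
  · obtain ⟨Z, hZ1, _, hZ2, _⟩ := hZ i 1 (by rw [map_one]; exact one_ne_zero)
    have := hZ1.1
    change 0 < ν i
    omega
  · exact one_pos

include hsq hcop ha in
/-- **The poles of the local topological zeta function.** -/
theorem loc_topZ (hZ : ∀ i, CentreNear (prodPow f a) q (ν i) (N i)) (b : Polynomial ℂ)
    (hb : IsLocalBFunction (shiftP q (prodPow f a)) b) (χ : Finset (I ⊕ T) → ℤ)
    (hχ : ∀ J, χ J ≠ 0 → ∀ t, Sum.inr t ∈ J → eval q (f t) = 0) (s₀ : ℂ)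
    (hs : (topZ (nuL ν T) (mulL N a) χ).denom.eval s₀ = 0) : b.eval s₀ = 0 := by
  obtain ⟨J, hJ, o, ho, _, rfl⟩ := Pool.Agent.Y228.RR.pole_topZ' _ _ χ (nuL_pos ν N q hZ) s₀ hs
  refine loc_candZ hsq hcop ha ν N q hZ b hb o fun t ht => ?_
  subst ht
  exact hχ J hJ t ho

include hsq hcop ha in
/-- **The denominators of the local motivic zeta function.** -/
theorem loc_motZ (hZ : ∀ i, CentreNear (prodPow f a) q (ν i) (N i)) (b : Polynomial ℂ)
    (hb : IsLocalBFunction (shiftP q (prodPow f a)) b)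
    {R : Type} [CommRing R] (u : Rˣ) (c : Finset {o // 0 < mulL N a o} → R)
    (hc : ∀ J, c J ≠ 0 → ∀ o ∈ J, ∀ t, o.1 = Sum.inr t → eval q (f t) = 0) :
    dlZ u (nuL ν T) (mulL N a) c ∈ ratU u (RootPairs b) := by
  refine dlZ_mem_of u _ _ c _ fun J hJ o ho => ⟨?_, ?_, ?_⟩
  · have := nuL_pos ν N q hZ o.1
    change -(nuL ν T o.1 : ℤ) < 0
    omega
  · change (0 : ℤ) < (mulL N a o.1 : ℤ)
    exact_mod_cast o.2
  · have h := loc_candZ hsq hcop ha ν N q hZ b hb o.1 (hc J hJ o ho)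
    change b.eval (((-(nuL ν T o.1 : ℤ) : ℤ) : ℂ) / ((mulL N a o.1 : ℤ) : ℂ)) = 0
    push_cast
    exact h

end local'

/-- the pairs, for polynomials over subfields -/
theorem pairs_goodZ (k : Type) [Field k] [Algebra k ℂ] {n : ℕ} {T I : Type} [Fintype T]
    [Fintype I] (f : T → MvPolynomial (Fin n) k)
    (hsq : ∀ t, Squarefree (map (algebraMap k ℂ) (f t)))
    (hcop : ∀ s t, s ≠ t → IsRelPrime (map (algebraMap k ℂ) (f s)) (map (algebraMap k ℂ) (f t)))
    (hu : ∀ t, ¬ IsUnit (map (algebraMap k ℂ) (f t))) (a : T → ℕ) (ha : ∀ t, 0 < a t)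
    (Z : I → Centre n) (hZ : ∀ i, ConeNC (Z i) (map (algebraMap k ℂ) (∏ t, f t ^ a t))) :
    ∀ q ∈ pairs (nuZ Z T) (mulZ Z (map (algebraMap k ℂ) (∏ t, f t ^ a t)) a),
      q.1 < 0 ∧ 0 < q.2 ∧ ∀ b : Polynomial ℂ,
        IsBFunction (map (algebraMap k ℂ) (∏ t, f t ^ a t)) b → b.eval ((q.1 : ℂ) / q.2) = 0 := by
  have he : map (algebraMap k ℂ) (∏ t, f t ^ a t) =
      prodPow (fun t => map (algebraMap k ℂ) (f t)) a := by
    rw [prodPow, map_prod]
    exact Finset.prod_congr rfl fun t _ => map_pow _ _ _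
  rw [he] at hZ ⊢
  intro q hq
  obtain ⟨h3, h4⟩ := pairs_sign (nuZ Z T)
    (mulZ Z (prodPow (fun t => map (algebraMap k ℂ) (f t)) a) a) (nuZ_pos Z hZ) q hq
  refine ⟨h3, h4, fun b hb => ?_⟩
  obtain ⟨o, ho, rfl⟩ := Finset.mem_image.1 hq
  have h := glob_candZ hsq hcop ha Z hZ hu b hb o
  push_cast
  exact h

end Pool.Agent.U841.SC
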