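import Pool.Agent.U841.SC.Top

set_option autoImplicit false
set_option linter.unusedSectionVars false

/-! # Motivic zeta functions of hypersurfaces resolved by blow-ups of smooth centres, at a point -/

namespace Pool.Agent.U841.SC

open MvPolynomial Pool.Agent.U841.SN Pool.Agent.H628R4.TP Pool.Agent.TH192.DT
  Pool.Agent.R852.BM

/-- The component occurs near the fibre over the point `q`: the centre occurs near `q` (with a point at
which the normal cone has normal crossings), respectively `f t (q) = 0`. -/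
def NearFibre {n : ℕ} {I T : Type} (Z : I → Centre n) (F : MvPolynomial (Fin n) ℂ)
    (f : T → MvPolynomial (Fin n) ℂ) (q : Fin n → ℂ) : I ⊕ T → Prop :=
  Sum.elim (fun i => CentreNear F q (Z i).c (multZ (Z i) F)) fun t => eval q (f t) = 0

variable {n : ℕ} {T : Type} [Fintype T] {f : T → MvPolynomial (Fin n) ℂ}
  (hsq : ∀ t, Squarefree (f t)) (hcop : ∀ s t, s ≠ t → IsRelPrime (f s) (f t))
  {a : T → ℕ} (ha : ∀ t, 0 < a t) {I : Type} [Fintype I] (Z : I → Centre n)
  (hZ : ∀ i, ConeNC (Z i) (prodPow f a))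

include hsq hcop ha hZ in
/-- **The denominators of the local motivic zeta function.** -/
theorem loc_motZ2 (q : Fin n → ℂ) (b : Polynomial ℂ)
    (hb : IsLocalBFunction (shiftP q (prodPow f a)) b)
    {R : Type} [CommRing R] (u : Rˣ) (c : Finset {o // 0 < mulZ Z (prodPow f a) a o} → R)
    (hc : ∀ J, c J ≠ 0 → ∀ o ∈ J, NearFibre Z (prodPow f a) f q o.1) :
    dlZ u (nuZ Z T) (mulZ Z (prodPow f a) a) c ∈ ratU u (RootPairs b) := by
  have hb' : AlgLoc (shiftP q (prodPow f a)) b := algLoc_of_local (prodPow_ne' hsq q) hb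
  refine dlZ_mem_of u _ _ c _ fun J hJ o ho => ⟨?_, ?_, ?_⟩
  · have := nuZ_pos (T := T) Z hZ o.1
    change -(nuZ Z T o.1 : ℤ) < 0
    omega
  · change (0 : ℤ) < (mulZ Z (prodPow f a) a o.1 : ℤ)
    exact_mod_cast o.2
  · have h : b.eval (-(nuZ Z T o.1 : ℂ) / mulZ Z (prodPow f a) a o.1) = 0 := by
      have h1 := hc J hJ o ho
      rcases o with ⟨i | t, h0⟩
      · have h := centre_root _ q b hb' _ _ h1
        rw [← neg_div] at h
        exact h
      · have h := str_root hsq hcop q b hb' t h1 (ha t)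
        change b.eval (-((1 : ℕ) : ℂ) / a t) = 0
        rw [Nat.cast_one]
        exact h
    change b.eval (((-(nuZ Z T o.1 : ℤ) : ℤ) : ℂ) / ((mulZ Z (prodPow f a) a o.1 : ℤ) : ℂ)) = 0
    push_cast
    exact h

end Pool.Agent.U841.SC
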